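import Pool.Agent.helper5.SYM.SpecB

set_option autoImplicit false

namespace Pool.Agent.SYM
open Finset CT Polynomial

theorem CNT_th0 {V : Type} {G : SimpleGraph V} (σ : G ≃g G) (v : V) : th σ 0 v = v := rfl

theorem CNT_th1 {V : Type} {G : SimpleGraph V} (σ : G ≃g G) : th σ 1 = σ := by
  unfold th
  exact if_neg one_ne_zero

theorem CNT_sd0 {V : Type} {G : SimpleGraph V} (σ : G ≃g G) (d : G.Dart) :
    sd (th σ 0) d = d := rfl

theorem CNT_zmod (a : ZMod 2) : a = 0 ∨ a = 1 := by
  revert a; decide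

theorem CNT_mem {V : Type} [Fintype V] [DecidableEq V] {R J K : Finset V} {x : V × Fin 4}
    (hx : x ∈ XX R J K) : x.1 ∈ R ∪ J ∪ K := by
  unfold XX at hx
  rcases mem_union.1 hx with h | h
  · rcases mem_union.1 h with h | h
    · exact mem_union_left _ (mem_union_left _ (mem_product.1 h).1)
    · exact mem_union_left _ (mem_union_right _ (mem_product.1 h).1)
  · exact mem_union_right _ (mem_product.1 h).1

theorem CNT_inR {V : Type} [Fintype V] [DecidableEq V] {G : SimpleGraph V} {σ : G ≃g G}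
    {R J K : Finset V} {κ : V × Fin 4 → G.Dart} (hD : Dat (th σ) R J K (fun _ => 1) κ)
    {r : V} (hr : r ∈ R ∪ J ∪ K) (hs : σ r ≠ r) : r ∈ R := by
  rcases mem_union.1 hr with h | h
  · rcases mem_union.1 h with h | h
    · exact h
    · exact absurd (by
        have := ((hD.Jst r h).2 1).2 (Or.inr rfl)
        rw [CNT_th1] at this
        exact this) hs
  · exact absurd (by
      have := hD.Kst r h 1
      rw [CNT_th1] at this
      exact this) hs

theorem CNT : CNT_stmt := by
  intro V _ _ G σ R J K κ e α C γ' _ hI hD hQ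
  classical
  -- the dead ends
  have key : ∀ c ∈ C, (c.1.1, c.2) ∈ XX R J K ∧ c.1.2 = 1 ∧
      (κ (c.1.1, c.2)).fst = c.1.1 ∧ (κ (c.1.1, c.2)).snd = σ c.1.1 ∧ σ c.1.1 ≠ c.1.1 ∧
      c.1.1 ∈ R := by
    intro c hc
    have h1 := (hQ.capv c hc).1
    have hc' : (((c.1.1, c.2) : V × Fin 4).1, (1 : Fin 3), c.2) = (c.1.1, c.1.2, c.2) := by
      rw [h1]
    have h2 : ((((c.1.1, c.2) : V × Fin 4).1, (1 : Fin 3)), ((c.1.1, c.2) : V × Fin 4).2) ∈ C := by
      have : ((((c.1.1, c.2) : V × Fin 4).1, (1 : Fin 3)), ((c.1.1, c.2) : V × Fin 4).2) = c := by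
        rw [← h1]
      rw [this]; exact hc
    obtain ⟨hx, a, ha⟩ := (hQ.capd (c.1.1, c.2)).1 h2
    have hf := (hD.fst _ hx).1
    rcases CNT_zmod a with h0 | h0
    · rw [h0, CNT_sd0] at ha
      exact absurd ha (SimpleGraph.Dart.symm_ne _)
    · rw [h0, CNT_th1] at ha
      have h3 : (κ (c.1.1, c.2)).snd = σ c.1.1 := by
        have := congrArg (fun d : G.Dart => d.fst) ha
        simp only [sd] at this
        rw [hf] at this
        exact this
      have h4 : σ c.1.1 ≠ c.1.1 := by
        intro h5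
        have := (κ (c.1.1, c.2)).adj
        rw [hf, h3, h5] at this
        exact G.loopless.irrefl _ this
      exact ⟨hx, h1, hf, h3, h4, CNT_inR hD (CNT_mem hx) h4⟩
  have inj1 : ∀ c ∈ C, ∀ c' ∈ C, c.1.1 = c'.1.1 → c = c' := by
    intro c hc c' hc' h
    obtain ⟨hx, h1, h2, h3, -, -⟩ := key c hc
    obtain ⟨hx', h1', h2', h3', -, -⟩ := key c' hc'
    have hk : κ (c.1.1, c.2) = κ (c'.1.1, c'.2) := by
      apply SimpleGraph.Dart.ext
      apply Prod.ext
      · exact h2.trans (h.trans h2'.symm)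
      · exact h3.trans ((congrArg σ h).trans h3'.symm)
    have := (hD.inj _ hx _ hx' 0 (by rw [CNT_sd0]; exact hk)).1
    have h5 : c.2 = c'.2 := (Prod.mk.inj this).2
    exact Prod.ext (Prod.ext h (h1.trans h1'.symm)) h5
  constructor
  · -- the bijection
    have hcard : C.card = Nat.card C := by
      rw [Nat.card_eq_fintype_card, Fintype.card_coe]
    rw [hcard]
    unfold nin
    refine Nat.card_eq_of_bijective
      (fun c : C => (⟨s(c.1.1.1, σ c.1.1.1), c.1.1.1, by
        obtain ⟨hx, h1, h2, h3, -, -⟩ := key c.1 c.2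
        have := (κ (c.1.1.1, c.1.2)).adj
        rw [h2, h3] at this
        exact this, rfl⟩ : {a : Sym2 V // ∃ u, G.Adj u (σ u) ∧ a = s(u, σ u)})) ⟨?_, ?_⟩
    · intro c c' h
      have h' : s(c.1.1.1, σ c.1.1.1) = s(c'.1.1.1, σ c'.1.1.1) := congrArg Subtype.val h
      obtain ⟨-, -, -, -, h4, h5⟩ := key c.1 c.2
      obtain ⟨-, -, -, -, h4', h5'⟩ := key c'.1 c'.2
      apply Subtype.ext
      apply inj1 _ c.2 _ c'.2
      rcases Sym2.eq_iff.1 h' with h6 | h6
      · exact h6.1
      · have := hD.uni _ (mem_union_left _ (mem_union_left _ h5')) _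
          (mem_union_left _ (mem_union_left _ h5)) 1 (by rw [CNT_th1]; exact h6.1.symm)
        exact this.symm
    · rintro ⟨a, u, hu, rfl⟩
      have hne : σ u ≠ u := fun h => by
        rw [h] at hu; exact G.loopless.irrefl _ hu
      obtain ⟨r, hr, a, har⟩ := hD.cov (⟨(u, σ u), hu⟩ : G.Dart) (by
        intro a ha
        rcases CNT_zmod a with h0 | h0
        · exact h0
        · rw [h0, CNT_th1] at ha
          exact absurd (congrArg (fun d : G.Dart => d.fst) ha) hne)
      have hrr : G.Adj r (σ r) ∧ s(r, σ r) = s(u, σ u) := by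
        rcases CNT_zmod a with h0 | h0
        · rw [h0, CNT_th0] at har
          have har' : r = u := har
          rw [har']
          exact ⟨hu, rfl⟩
        · rw [h0, CNT_th1] at har
          have har' : σ r = u := har
          have h7 : σ u = r := by rw [← har']; exact hI.1 r
          rw [har']
          rw [h7] at hu
          refine ⟨hu.symm, ?_⟩
          rw [h7]
          exact Sym2.eq_swap
      have hrne : σ r ≠ r := fun h => by
        have := hrr.1
        rw [h] at this; exact G.loopless.irrefl _ this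
      have hrR := CNT_inR hD hr hrne
      obtain ⟨i, hi⟩ := hD.Rd r hrR (⟨(r, σ r), hrr.1⟩ : G.Dart) rfl
      have hx : (r, i) ∈ XX R J K := by
        unfold XX
        exact mem_union_left _ (mem_union_left _ (mem_product.2 ⟨hrR, mem_univ _⟩))
      have hC : ((r, (1 : Fin 3)), i) ∈ C := by
        refine (hQ.capd (r, i)).2 ⟨hx, 1, ?_⟩
        rw [CNT_th1, ← hi]
        apply SimpleGraph.Dart.ext
        apply Prod.ext
        · rfl
        · exact (hI.1 r).symm
      exact ⟨⟨_, hC⟩, Subtype.ext hrr.2⟩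
  · refine card_le_card_of_injOn (fun c => c.1.1) (fun c hc => ?_) (fun c hc c' hc' h => ?_)
    · exact (key c hc).2.2.2.2.2
    · exact inj1 c hc c' hc' h

end Pool.Agent.SYM
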